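import Pool.Agent.Helper53.MemDefs
import Pool.Agent.Helper53.MemProof

set_option autoImplicit false

namespace Pool.Agent.Results.MP_4814b8_lc.SafetySeparation

open Pool.Agent.Helper53.Mem

/-- There is a safety condition over four colours that needs at most two states of general memory
for either player but infinitely many states of chromatic memory. -/
theorem result : ∃ W : Set (ℕ → Fin 4),
    IsClosed W ∧ genMem W ≤ 2 ∧ genMem Wᶜ ≤ 2 ∧ chrMem W = ⊤ :=
  main

end Pool.Agent.Results.MP_4814b8_lc.SafetySeparation
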